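import Pool.Agent.R211.BQ.Shift

/-!
The projection of the weak sigma-attractor of the semi-dissipative Boussinesq system on the
temperature is dense; indeed it is the whole space.
-/

set_option autoImplicit false

open Set MeasureTheory Filter Topology
open Pool.Agent.R211.BQ

namespace Pool.Agent.Results.MP_e4edaa_an.DenseTemperatures

/-- The solution operator: `q = S(t) p`. -/
def Ev (L ν g t : ℝ) (p q : (Fin 2 → T2 → ℝ) × (T2 → ℝ)) : Prop :=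
  ∃ (u : ℝ → Fin 2 → T2 → ℝ) (θ : ℝ → T2 → ℝ), IsSol L ν g (Ici 0) u θ ∧
    (u 0, θ 0) = p ∧ (u t, θ t) = q

/-- Weak convergence in `L²`. -/
def WLim (f : ℕ → T2 → ℝ) (f₀ : T2 → ℝ) : Prop :=
  ∀ φ : T2 → ℝ, MemLp φ 2 mu →
    Tendsto (fun n => ∫ y, f n y * φ y ∂mu) atTop (𝓝 (∫ y, f₀ y * φ y ∂mu))

/-- The weak sigma-attractor: the weak limits of `S(tₙ) xₙ`, with `tₙ → ∞` and `xₙ` bounded. -/
def AttW (L ν g : ℝ) : Set ((Fin 2 → T2 → ℝ) × (T2 → ℝ)) :=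
  {p | p.1 ∈ Hs ∧ p.2 ∈ L20 ∧ ∃ (t : ℕ → ℝ) (x q : ℕ → (Fin 2 → T2 → ℝ) × (T2 → ℝ)) (M : ℝ),
    Tendsto t atTop atTop ∧ (∀ n, 0 ≤ t n ∧ Bdd M (x n).1 (x n).2 ∧ Ev L ν g (t n) (x n) (q n)) ∧
    (∀ i, WLim (fun n => (q n).1 i) (p.1 i)) ∧ WLim (fun n => (q n).2) p.2}

/-- For all `L, ν, g > 0` the set `P_θ 𝒜` is dense in `L²` for the norm; indeed it is `L²`. -/
theorem result (L ν g : ℝ) (hL : 0 < L) (hν : 0 < ν) (_ : 0 < g) :
    (∀ φ ∈ L20, ∀ ε > 0, ∃ p ∈ AttW L ν g, ∫ y, (p.2 y - φ y) ^ 2 ∂mu < ε ^ 2) ∧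
      Prod.snd '' AttW L ν g = L20 := by
  have key : ∀ θ₀ ∈ L20, ∃ p ∈ AttW L ν g, p.2 = θ₀ := by
    intro θ₀ h0
    obtain ⟨u, θ, h1, ⟨M, hM⟩, h3⟩ := exists_traj (g := g) hL hν h0
    refine ⟨(u 0, θ 0), ⟨h1.memH 0 (mem_univ _), h1.memL 0 (mem_univ _), fun n => n,
      fun n => (u (0 - n), θ (0 - n)), fun n => (u (n - n), θ (n - n)), M,
      tendsto_natCast_atTop_atTop, fun n => ⟨Nat.cast_nonneg n, hM _,
        fun s => u (s - n), fun s => θ (s - n), h1.shift n _, rfl, rfl⟩, ?_, ?_⟩, h3⟩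
    · intro i φ _
      simp only [sub_self]
      exact tendsto_const_nhds
    · intro φ _
      simp only [sub_self]
      exact tendsto_const_nhds
  refine ⟨fun φ hφ ε hε => ?_, Subset.antisymm ?_ fun θ₀ h0 => ?_⟩
  · obtain ⟨p, hp, h2⟩ := key φ hφ
    refine ⟨p, hp, ?_⟩
    rw [h2]
    simp only [sub_self, ne_eq, OfNat.ofNat_ne_zero, not_false_eq_true, zero_pow, integral_zero]
    positivity
  · rintro _ ⟨p, ⟨-, h1, -⟩, rfl⟩
    exact h1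
  · obtain ⟨p, hp, h2⟩ := key θ₀ h0
    exact ⟨p, hp, h2⟩

end Pool.Agent.Results.MP_e4edaa_an.DenseTemperatures
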